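import Pool.Agent.Helper96.BTN.Main

/-!
# Boolean programs of length `c N log N`

The nodes of the network are the elements of `Fin (8 * s ^ 20 * 2)`, a row has `s ^ 13` letters in each node; letters
are elements of the finite field `K` of characteristic `2`. The input gives a bit `I (b, l)` for every cell `b : K` and
every `l : Fin 60 → K`. The content of the cell `b` is the sum of the `l` with `I (b, l) = 1`, read as the coefficients
of a polynomial of degree less than `60`; `tab (evalCode ω) I b` are the values of this polynomial at the points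
`ω (j, t)`. The letter `(u, t)` of the row `i + 1` is the sum over all `(j, t')` of the values at `ω (j, t')` of the
polynomials of the cells given by the letters `(g j u, t + t')` of the row `i` (`val (fine g) x0`). The result
`out (evalCode ω) g x0 1 (2 * s) I` is the sum of the bits `(b, 0)` for the cells `b` given by the letters `(u, 0)` of the
row `2 * s + 1`.

`NProg` are branching programs, which are deterministic if `Det P`, and `PProg` are deterministic ones with a pushdown
store. The list `l` in `P.Ends I l z` contains the bits queried by a computation with result `z`, in the order of the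
queries; `P.Run I a l b` are the computations from the state `a` to the state `b`.
-/

namespace Pool.Agent.Helper60.Old.LengthNLogN

open Pool.Agent.Helper19.NF Pool.Agent.Helper74.NW Pool.Agent.Helper96.BT
open Pool.Agent.Helper96.PH (Det)
open Pool.Agent.Helper43.BT (evalCode)

theorem result (s : ℕ) [NeZero s] (hs : 2 ^ 60 ≤ s) :
    ∃ G : Set (Fin 15 → Equiv.Perm (Fin (8 * s ^ 20 * 2))),
      Nat.card {g // g ∉ G} * 2 ^ s ^ 20 ≤ Nat.card (Fin 15 → Equiv.Perm (Fin (8 * s ^ 20 * 2))) ∧
      ∀ g ∈ G, ∀ (K : Type) [Field K] [Fintype K] [Algebra (ZMod 2) K]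
      (ω : Fin 15 × Fin (s ^ 13) → K) (x0 : Fin (8 * s ^ 20 * 2) × Fin (s ^ 13) → K),
      s ^ 2000 ≤ Fintype.card K → Function.Injective ω → Function.Injective x0 →
        -- (D) deterministic programs
        (∀ (w S : ℕ) (ε θ : ℝ) (P : NProg (K × (Fin 60 → K)) (ZMod 2) (ZMod 2) S), 2 ^ w ≤ s → 1 / s ≤ ε → ε ≤ 1 →
          1 / s ≤ θ → θ ≤ 1 → S ≤ 2 ^ s → Det P →
          (Nat.card {I : K × (Fin 60 → K) → ZMod 2 // ∃ l,
              P.Ends I l (out (evalCode ω) g x0 1 (2 * s) I) ∧ Rare ε w l} : ℝ) ≤
            Nat.card {I : K × (Fin 60 → K) → ZMod 2 // ∃ l z, P.Ends I l z ∧ Rare (ε / 2) w l} / 2 +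
            θ * Nat.card (K × (Fin 60 → K) → ZMod 2)) ∧
        -- (N) nondeterministic programs with few computations which are never wrong
        (∀ (w S M : ℕ) (ε : ℝ) (P : NProg (K × (Fin 60 → K)) (ZMod 2) (ZMod 2) S), 2 ^ w ≤ s → 1 / s ≤ ε → ε ≤ 1 →
          S * M ≤ 2 ^ s →
          (∀ (I : K × (Fin 60 → K) → ZMod 2) (a b : Fin S) (t : ℕ),
            Nat.card {l : List (K × (Fin 60 → K)) // l.length = t ∧ P.Run I a l b} ≤ M) →
          (∀ I l z, P.Ends I l z → z = out (evalCode ω) g x0 1 (2 * s) I) →
          Nat.card {I : K × (Fin 60 → K) → ZMod 2 // ∃ l z, P.Ends I l z ∧ Rare ε w l} * s ≤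
            Nat.card (K × (Fin 60 → K) → ZMod 2)) ∧
        -- (H) short computations
        (∀ (w : ℕ) (ε : ℝ) (l : List (K × (Fin 60 → K))),
          (l.length : ℝ) ≤ (1 - ε) * (w + 1) * Fintype.card (K × (Fin 60 → K)) → Rare ε w l) ∧
        -- (P) a deterministic pushdown program
        ∃ (Q Γ : Type) (_ : Finite Q) (_ : Finite Γ) (P : PProg (K × (Fin 60 → K)) (ZMod 2) (ZMod 2) Q Γ),
          Nat.card Q ≤ Nat.card (K × (Fin 60 → K)) ^ 3 ∧ Nat.card Γ ≤ Nat.card (K × (Fin 60 → K)) ∧
          ∀ I, P.Outputs I (out (evalCode ω) g x0 1 (2 * s) I) ∧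
            Nat.card {x // P.Asks I x} ^ 2 * Fintype.card K ≤ Nat.card (K × (Fin 60 → K)) ^ 2 :=
  Pool.Agent.Helper96.BTN.main s hs

end Pool.Agent.Helper60.Old.LengthNLogN
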