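import Pool.Agent.Helper27.RT.FinalM

/-!
A problem over the alphabet `F` (a finite field; `ZMod 2` for bits), given by a network with rows of `M a` nodes with `m`
letters in the `F`-space `B` and one table; the block of the cell `b` has one symbol in `F` for every word `w`, and stands
for the word which is the sum of the words `w`, multiplied by their symbols; the value is the sum of the symbols at the
word `0` in the blocks of the letters of the last row. Nondeterministic programs which query single symbols, and in whose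
computations with a result some part `1 / q + δ` of the symbols is queried at most `r` times each, all others arbitrarily
often, have a result on a small part of the inputs only if they have at least `2 ^ a` states; in particular programs of
length `c N` (and, since the constants are explicit functions of `r`, of length `c N loglog N`). The same for
nondeterministic pushdown programs with `2 ^ b` steps; a deterministic pushdown program of polynomial size solves the
problem. Every nondeterministic (unambiguous) program is equivalent to one of nearly the same size which queries nearly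
`1 / q` of the symbols at most once.
-/

namespace Pool.Agent.Helper60.Old.RarelyReadSymbols

open Pool.Agent.Helper19.NF (PProg)
open Pool.Agent.Helper74.NW (NProg NPProg)
open Pool.Agent.Helper99.NQ (Word)
open Pool.Agent.Helper43.NK (out)
open Pool.Agent.Helper99.NK (times)
open Pool.Agent.Helper96.PH (Unamb)

theorem result (F : Type) [Field F] [Fintype F] (δ : ℝ) (hδ : 0 < δ) : ∃ c : ℕ, ∀ r : ℕ,
    ∃ (C D M m : ℕ) (_ : NeZero m), D * m ≤ 2 ^ (c * (r + 1)) ∧ C ≤ 2 ^ (2 ^ (c * (r + 1))) ∧ M * m ≤ C ∧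
      1 < D ∧ 1 < M ∧ ∀ a : ℕ, 1 ≤ a →
      ∃ G : Set (Fin D → Equiv.Perm (Fin (M * a))),
      2 ^ (M * a) * Nat.card {g // g ∉ G} ≤ Nat.card (Fin D → Equiv.Perm (Fin (M * a))) ∧ ∀ g ∈ G,
      ∀ (B : Type) [AddCommGroup B] [Module F B] [Fintype B] (x0 : Fin (M * a) × Fin m → B),
      Function.Injective x0 → ∀ (R k N : ℕ) (q E : ℝ) (f : (B × Word D m B → F) → F),
      1 ≤ R → R ≤ a → k = Nat.card B → C * (a * R) ^ 2 ≤ k → N = Nat.card (B × Word D m B) → q = Nat.card F →
      E = C * ((a * R) ^ 2 / k + 1 / √k) + 1 / 2 ^ a → f = out g x0 (R + 1) →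
      N = k ^ (D * m + 1) ∧
      (∀ y, (1 / q - E) * Nat.card (B × Word D m B → F) ≤ Nat.card {I // f I = y}) ∧
      (∀ (S : ℕ) (P : NProg (B × Word D m B) F F S), (∀ I l z, P.Ends I l z → z = f I) →
        (S ≤ 2 ^ a → (S ≤ 2 ^ R ∨ ∀ I l z, P.Ends I l z → l.length ≤ 2 ^ R) →
          (Nat.card {I : B × Word D m B → F // (∃ l z, P.Ends I l z) ∧
            ∀ l z, P.Ends I l z → (1 / q + δ) * N ≤ Nat.card {x // times l x ≤ r}} : ℝ) ≤
            E * Nat.card (B × Word D m B → F)) ∧
        (∀ L : ℕ, L ≤ (1 - 1 / q - δ) * (r + 1) * N → L ≤ 2 ^ R → S * (L + 1) ≤ 2 ^ a →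
          (Nat.card {I : B × Word D m B → F // ∃ l z, P.Ends I l z ∧ l.length ≤ L} : ℝ) ≤
            E * Nat.card (B × Word D m B → F))) ∧
      (∀ (b : ℕ) (Q Γ : Type) (_ : Finite Q) (P : NPProg (B × Word D m B) F F Q Γ),
        (∀ I l j z, P.Ends I l j z → z = f I) →
        ((2 * Nat.card Q ^ 2 + 2) ^ (b + 2) ≤ 2 ^ R →
          (Nat.card {I : B × Word D m B → F // (∃ l j z, P.Ends I l j z ∧ j ≤ 2 ^ b) ∧
            ∀ l j z, P.Ends I l j z → (1 / q + δ) * N ≤ Nat.card {x // times l x ≤ r}} : ℝ) ≤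
            E * Nat.card (B × Word D m B → F)) ∧
        (∀ L : ℕ, L ≤ (1 - 1 / q - δ) * (r + 1) * N → L + 1 ≤ 2 ^ R →
          (2 * Nat.card Q ^ 2 + 2) ^ (b + 2) * (L + 2) ≤ 2 ^ a →
          (Nat.card {I : B × Word D m B → F // ∃ l j z, P.Ends I l j z ∧ j ≤ 2 ^ b ∧ l.length ≤ L} : ℝ) ≤
            E * Nat.card (B × Word D m B → F))) ∧
      (∃ (Q Γ : Type) (_ : Finite Q) (_ : Finite Γ) (P : PProg (B × Word D m B) F F Q Γ),
        Nat.card Q ≤ N ^ 3 ∧ Nat.card Γ ≤ N ∧
        ∀ I, P.Outputs I (f I) ∧ (Nat.card {x // P.Asks I x} : ℝ) ≤ N / √k) ∧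
      (∀ (S : ℕ) (P : NProg (B × Word D m B) F F S), ∃ (S' : ℕ) (P' : NProg (B × Word D m B) F F S'),
        S' ≤ (N + 1) ^ 3 * (Nat.card F * S + 1) ∧ (Unamb P → Unamb P') ∧
        (∀ I z, (∃ l, P'.Ends I l z) ↔ ∃ l, P.Ends I l z) ∧
        (Nat.card {I : B × Word D m B → F // ¬ ∀ l z, P'.Ends I l z →
          (1 / q - δ) * N ≤ Nat.card {x // times l x ≤ 1}} : ℝ) ≤
          4 / (δ ^ 2 * N) * Nat.card (B × Word D m B → F)) :=
  Pool.Agent.Helper27.RT.finalM F δ hδ

end Pool.Agent.Helper60.Old.RarelyReadSymbols
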